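import Pool.Agent.W343.FZH.Spec

/-! Project FZH (helper343), Part D (helper421): eigenvalues of finite windows are dense in the
unit disc. -/

set_option autoImplicit false

namespace Pool.Agent.W421.FZH

open Pool.Agent.W681.FZ Pool.Agent.W343.FZH

theorem hz_sq (hC : PartC) {z : ℂ} (h : HasZero (z ^ 2)) : HasZero z := by
  obtain ⟨b, N, hb, h0⟩ := h
  obtain ⟨B, hB, hphi⟩ := hC b (fun _ => 1) hb (fun _ => Or.inl rfl) 0 (N + 1)
  refine ⟨B, 2 * N + 2, hB, ?_⟩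
  have h1 := hphi z
  have e1 : (0 + 2) * (N + 1 + 1) - 1 = 2 * N + 2 + 1 := by omega
  rw [e1, zero_add, phi_one, ← pow_two, h0, mul_zero] at h1
  exact h1

theorem hz_pow (hC : PartC) (k : ℕ) {z : ℂ} (h : HasZero (z ^ (2 ^ k))) : HasZero z := by
  induction k with
  | zero => simpa using h
  | succ k ih =>
    apply ih
    apply hz_sq hC
    rw [← pow_mul, ← pow_succ]
    exact h

theorem phi_sin (t : ℂ) (n : ℕ) :
    phi (2 * Complex.cos t) (fun _ => 1) n * Complex.sin t = Complex.sin ((n + 1) * t) ∧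
    phi (2 * Complex.cos t) (fun _ => 1) (n + 1) * Complex.sin t = Complex.sin ((n + 2) * t) := by
  induction n with
  | zero =>
    constructor
    · simp
    · rw [zero_add, phi_one]
      have : ((0 : ℕ) : ℂ) + 2 = 2 := by norm_num
      rw [this, Complex.sin_two_mul]
      ring
  | succ n ih =>
    obtain ⟨h1, h2⟩ := ih
    constructor
    · rw [h2]; congr 1; push_cast; ring
    · rw [phi_succ, sub_mul, one_mul, mul_assoc, h2, h1]
      have e1 : ((n : ℂ) + 1 + 2) * t = ((n : ℂ) + 2) * t + t := by ring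
      have e2 : ((n : ℂ) + 1) * t = ((n : ℂ) + 2) * t - t := by ring
      push_cast
      rw [e1, e2, Complex.sin_add, Complex.sin_sub]
      ring

theorem hz_real {a b : ℝ} (ha : 0 ≤ a) (hab : a < b) (hb : b ≤ 1) :
    ∃ s : ℝ, a < s ∧ s < b ∧ HasZero (s : ℂ) := by
  have hpi := Real.pi_pos
  have h1 : Real.arccos (b / 2) < Real.arccos (a / 2) := by
    apply Real.strictAntiOn_arccos
    · constructor <;> linarith
    · constructor <;> linarith
    · linarith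
  have h2 : Real.arccos (b / 2) / Real.pi < Real.arccos (a / 2) / Real.pi :=
    div_lt_div_of_pos_right h1 hpi
  obtain ⟨q, hq1, hq2⟩ := exists_rat_btwn h2
  rw [div_lt_iff₀ hpi] at hq1
  rw [lt_div_iff₀ hpi] at hq2
  have hA0 := Real.arccos_nonneg (b / 2)
  have hA1 := Real.arccos_le_pi (a / 2)
  have hq0 : (0 : ℝ) < q := by
    by_contra hcon
    push Not at hcon
    have : (q : ℝ) * Real.pi ≤ 0 := mul_nonpos_of_nonpos_of_nonneg hcon hpi.le
    linarith
  have hql : (q : ℝ) < 1 := by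
    by_contra hcon
    push Not at hcon
    have : 1 * Real.pi ≤ (q : ℝ) * Real.pi := mul_le_mul_of_nonneg_right hcon hpi.le
    linarith
  have hq0' : 0 < q := by exact_mod_cast hq0
  have hql' : q < 1 := by exact_mod_cast hql
  have hden : 2 ≤ q.den := by
    by_contra hcon
    have hd := q.den_pos
    have hd1 : q.den = 1 := by omega
    have hqi : (q.num : ℚ) = q := Rat.coe_int_num_of_den_eq_one hd1
    rw [← hqi] at hq0' hql'
    have i1 : 0 < q.num := by exact_mod_cast hq0'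
    have i2 : q.num < 1 := by exact_mod_cast hql'
    omega
  obtain ⟨N, hN⟩ : ∃ N, q.den = N + 2 := ⟨q.den - 2, by omega⟩
  obtain ⟨t, ht⟩ : ∃ t : ℝ, t = (q : ℝ) * Real.pi := ⟨_, rfl⟩
  rw [← ht] at hq1 hq2
  have ht0 : 0 < t := by rw [ht]; positivity
  have htpi : t < Real.pi := by rw [ht]; nlinarith
  have hc1 : Real.cos t < b / 2 := by
    rw [← Real.cos_arccos (x := b / 2) (by linarith) (by linarith)]
    exact Real.cos_lt_cos_of_nonneg_of_le_pi hA0 htpi.le hq1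
  have hc2 : a / 2 < Real.cos t := by
    rw [← Real.cos_arccos (x := a / 2) (by linarith) (by linarith)]
    exact Real.cos_lt_cos_of_nonneg_of_le_pi ht0.le hA1 hq2
  refine ⟨2 * Real.cos t, by linarith, by linarith, fun _ => 1, N, fun _ => Or.inl rfl, ?_⟩
  have h3 := (phi_sin (t : ℂ) N).2
  have h4 : ((N : ℂ) + 2) * (t : ℂ) = ((q.num : ℤ) : ℂ) * (Real.pi : ℂ) := by
    have e1 : (q : ℝ) = (q.num : ℝ) / ((N : ℝ) + 2) := by
      have := Rat.cast_def (K := ℝ) q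
      rw [this, hN]; push_cast; ring
    have e2 : ((N : ℝ) + 2) * t = (q.num : ℝ) * Real.pi := by
      rw [ht, e1]
      have : (N : ℝ) + 2 ≠ 0 := by positivity
      field_simp
    exact_mod_cast e2
  rw [h4, Complex.sin_int_mul_pi] at h3
  have h5 : Complex.sin (t : ℂ) ≠ 0 := by
    rw [← Complex.ofReal_sin]
    exact_mod_cast (Real.sin_pos_of_pos_of_lt_pi ht0 htpi).ne'
  have h6 := (mul_eq_zero.1 h3).resolve_right h5
  have h7 : ((2 * Real.cos t : ℝ) : ℂ) = 2 * Complex.cos (t : ℂ) := by push_cast; ring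
  rw [h7]
  exact h6

theorem partD (hC : PartC) : PartD := by
  intro μ hμ ε hε
  obtain ⟨a, ha⟩ : ∃ a, a = ‖μ‖ := ⟨_, rfl⟩
  have ha0 : 0 ≤ a := by rw [ha]; exact norm_nonneg _
  rw [← ha] at hμ
  have hpi := Real.pi_pos
  -- the angle
  obtain ⟨k, hk⟩ : ∃ k : ℕ, 4 * Real.pi / ε < 2 ^ k := pow_unbounded_of_one_lt _ (by norm_num)
  obtain ⟨K, hK⟩ : ∃ K : ℝ, K = 2 ^ k := ⟨_, rfl⟩
  rw [← hK] at hk
  have hK0 : 0 < K := by rw [hK]; positivity
  have hk2 : 2 * Real.pi / K < ε / 2 := by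
    rw [div_lt_iff₀ hε] at hk
    rw [div_lt_iff₀ hK0]
    linarith
  obtain ⟨θ, hθ⟩ : ∃ θ, θ = Complex.arg μ := ⟨_, rfl⟩
  obtain ⟨j, hj⟩ : ∃ j : ℤ, j = ⌊θ * K / (2 * Real.pi)⌋ := ⟨_, rfl⟩
  obtain ⟨τ, hτ⟩ : ∃ τ : ℝ, τ = 2 * Real.pi * j / K := ⟨_, rfl⟩
  have hτ1 : τ ≤ θ := by
    have h1 : (j : ℝ) ≤ θ * K / (2 * Real.pi) := by rw [hj]; exact Int.floor_le _
    rw [le_div_iff₀ (by positivity)] at h1
    rw [hτ, div_le_iff₀ hK0]
    linarith
  have hτ2 : θ - τ < 2 * Real.pi / K := by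
    have h1 : θ * K / (2 * Real.pi) < (j : ℝ) + 1 := by rw [hj]; exact Int.lt_floor_add_one _
    rw [div_lt_iff₀ (by positivity)] at h1
    have h2 : θ < τ + 2 * Real.pi / K := by
      rw [hτ, ← add_div, lt_div_iff₀ hK0]
      linarith
    linarith
  -- the radius
  obtain ⟨r2, hr2, hr2'⟩ : ∃ r2, a < r2 ∧ r2 < min 1 (a + ε / 2) :=
    exists_between (lt_min hμ (by linarith))
  have hr21 : r2 < 1 := lt_of_lt_of_le hr2' (min_le_left _ _)
  have hr2e : r2 < a + ε / 2 := lt_of_lt_of_le hr2' (min_le_right _ _)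
  have hne : 2 ^ k ≠ 0 := by positivity
  obtain ⟨s, hs1, hs2, hs3⟩ := hz_real (a := a ^ (2 ^ k)) (b := r2 ^ (2 ^ k)) (by positivity)
    (pow_lt_pow_left₀ hr2 ha0 hne) (pow_le_one₀ (by linarith) hr21.le)
  have hs0 : 0 ≤ s := le_trans (by positivity) hs1.le
  obtain ⟨ρ, hρ⟩ : ∃ ρ : ℝ, ρ = s ^ ((((2 ^ k : ℕ) : ℝ))⁻¹) := ⟨_, rfl⟩
  have hρ0 : 0 ≤ ρ := by rw [hρ]; positivity
  have hρs : ρ ^ (2 ^ k) = s := by rw [hρ]; exact Real.rpow_inv_natCast_pow hs0 hne
  have hρ1 : a < ρ := lt_of_pow_lt_pow_left₀ (2 ^ k) hρ0 (by rw [hρs]; exact hs1)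
  have hρ2 : ρ < r2 := lt_of_pow_lt_pow_left₀ (2 ^ k) (by linarith) (by rw [hρs]; exact hs2)
  refine ⟨(ρ : ℂ) * Complex.exp (Complex.I * (τ : ℂ)), ?_, ?_⟩
  · have hμe : μ = (a : ℂ) * Complex.exp (Complex.I * (θ : ℂ)) := by
      rw [ha, hθ, mul_comm Complex.I]
      exact (Complex.norm_mul_exp_arg_mul_I μ).symm
    have e1 : (ρ : ℂ) * Complex.exp (Complex.I * (τ : ℂ)) - μ =
        ((ρ - a : ℝ) : ℂ) * Complex.exp (Complex.I * (τ : ℂ)) -
          (a : ℂ) * Complex.exp (Complex.I * (τ : ℂ)) *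
            (Complex.exp (Complex.I * ((θ - τ : ℝ) : ℂ)) - 1) := by
      have e2 : Complex.exp (Complex.I * (τ : ℂ)) * Complex.exp (Complex.I * ((θ - τ : ℝ) : ℂ)) =
          Complex.exp (Complex.I * (θ : ℂ)) := by
        rw [← Complex.exp_add]; congr 1; push_cast; ring
      rw [mul_sub, mul_one, mul_assoc (a : ℂ), e2, hμe]
      push_cast
      ring
    have hn : ∀ x : ℝ, ‖Complex.exp (Complex.I * (x : ℂ))‖ = 1 := by
      intro x
      rw [mul_comm]; exact Complex.norm_exp_ofReal_mul_I x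
    have h3 : ‖Complex.exp (Complex.I * ((θ - τ : ℝ) : ℂ)) - 1‖ ≤ ‖θ - τ‖ :=
      Real.norm_exp_I_mul_ofReal_sub_one_le
    have h4 : ‖θ - τ‖ < 2 * Real.pi / K := by
      rw [Real.norm_eq_abs, abs_of_nonneg (by linarith)]
      exact hτ2
    rw [e1]
    calc _ ≤ ‖((ρ - a : ℝ) : ℂ) * Complex.exp (Complex.I * (τ : ℂ))‖ +
          ‖(a : ℂ) * Complex.exp (Complex.I * (τ : ℂ)) *
            (Complex.exp (Complex.I * ((θ - τ : ℝ) : ℂ)) - 1)‖ := norm_sub_le _ _
      _ = (ρ - a) + a * ‖Complex.exp (Complex.I * ((θ - τ : ℝ) : ℂ)) - 1‖ := by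
          rw [norm_mul, norm_mul, norm_mul, hn, mul_one, mul_one, Complex.norm_real,
            Complex.norm_real, Real.norm_eq_abs, Real.norm_eq_abs, abs_of_nonneg (by linarith),
            abs_of_nonneg ha0]
      _ < ε := by
          have h5 : a * ‖Complex.exp (Complex.I * ((θ - τ : ℝ) : ℂ)) - 1‖ ≤
              1 * (2 * Real.pi / K) :=
            mul_le_mul hμ.le (h3.trans h4.le) (norm_nonneg _) zero_le_one
          linarith
  · apply hz_pow hC k
    have e3 : ((ρ : ℂ) * Complex.exp (Complex.I * (τ : ℂ))) ^ (2 ^ k) = (s : ℂ) := by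
      rw [mul_pow, ← Complex.exp_nat_mul]
      have e4 : ((2 ^ k : ℕ) : ℂ) * (Complex.I * (τ : ℂ)) = (j : ℂ) * (2 * Real.pi * Complex.I) := by
        have e5 : K * τ = 2 * Real.pi * j := by rw [hτ]; field_simp
        have e6 : ((2 ^ k : ℕ) : ℂ) = (K : ℂ) := by rw [hK]; push_cast; rfl
        have e7 : (K : ℂ) * (τ : ℂ) = 2 * (Real.pi : ℂ) * (j : ℂ) := by exact_mod_cast e5
        rw [e6]
        calc (K : ℂ) * (Complex.I * (τ : ℂ)) = ((K : ℂ) * (τ : ℂ)) * Complex.I := by ring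
          _ = _ := by rw [e7]; ring
      rw [e4, Complex.exp_int_mul_two_pi_mul_I, mul_one]
      exact_mod_cast hρs
    rw [e3]
    exact hs3

end Pool.Agent.W421.FZH
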